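import Pool.Agent.H30OB.Ball

/-!
# MP_d967a3_an, Q2: outer billiards with invariant hypersurfaces in every even dimension: all tables
that coincide with the ball near a complex cone, in particular all small perturbations of the ball
that are trivial near one complex line

The definitions `Sym`, `IsTable`, `IsOuterNormal`, `outerNormal`, `IsEllipsoid`, `J`,
`IsTangencyPoint`, `outerBilliard`, `IsOuterInvariantHypersurface` are in
`Pool/Graph/R_seed8/H703R3/MBDefs.lean`.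

The outer billiard of the unit ball multiplies each point by a complex number of modulus one which
depends on its norm. So it preserves every hypersurface which is a complex cone `Z`, and the
tangency points of the points of `Z` are in `Z` too; these points do not notice a change of the
ball outside a neighbourhood of `Z`.
-/

set_option autoImplicit false

open Set Filter Topology
open scoped RealInnerProductSpace ContDiff

namespace Pool.Agent.Results.MP_d967a3_an.OuterCones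

open Pool.Agent.H703R3.MB

/-- `Z` is a complex cone: a nonempty smooth hypersurface of `ℝ²ᵐ \ {0}`, closed in `ℝ²ᵐ \ {0}`,
which is invariant under the multiplication with all nonzero complex numbers `a + b √-1`, that is,
under the maps `x ↦ a x + b J x`. In other words, the cone over a closed smooth real hypersurface
of the complex projective space. -/
structure IsComplexCone {m : ℕ} (Z : Set (Sym m)) : Prop where
  nonempty : Z.Nonempty
  closed : ∃ C : Set (Sym m), IsClosed C ∧ Z = {0}ᶜ ∩ C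
  smooth : ∀ x ∈ Z, ∃ F : Sym m → ℝ, ContDiff ℝ ∞ F ∧ (∀ᶠ y in 𝓝 x, (y ∈ Z ↔ F y = 0)) ∧
    fderiv ℝ F x ≠ 0
  mul : ∀ x ∈ Z, ∀ a b : ℝ, a ^ 2 + b ^ 2 ≠ 0 → a • x + b • J x ∈ Z

/-- The perturbed unit ball `{x : ‖x‖² + ε φ(x) ≤ 1}`. -/
def perturbedBall {m : ℕ} (φ : Sym m → ℝ) (ε : ℝ) : Set (Sym m) := {x | ‖x‖ ^ 2 + ε * φ x ≤ 1}

/-- The cone `|⟨x, w⟩|² = κ ‖x‖²` around the complex line of `w`, without the origin (`⟨x, w⟩` is the
complex scalar product). -/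
def lineCone {m : ℕ} (w : Sym m) (κ : ℝ) : Set (Sym m) :=
  {x | x ≠ 0 ∧ ⟪w, x⟫ ^ 2 + ⟪J w, x⟫ ^ 2 = κ * ‖x‖ ^ 2}

lemma cone_iff {m : ℕ} {Z : Set (Sym m)} (h : IsComplexCone Z) : Pool.Agent.H30OB.IsComplexCone Z :=
  ⟨h.nonempty, h.closed, h.smooth, h.mul⟩

/-- **Main theorem.**
1. For every table `K` of `ℝ²ᵐ` each exterior point has exactly one tangency point, and the outer
   billiard map is a bijection of the exterior of `K`.
2. Let `Z` be any complex cone and `K` any table that coincides with the unit ball near each unit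
   vector of `Z`. Then the part of `Z` outside `K` is an invariant hypersurface, and `K` is an
   ellipsoid only if it is the unit ball.
3. Let `Z` be a complex cone and `φ` any smooth function with compact support that contains no unit
   vector of `Z`. For all small `ε` the set `‖x‖² + ε φ(x) ≤ 1` is such a table, and (for `ε ≠ 0`) it
   is not an ellipsoid unless `φ` vanishes on the unit sphere.
4. Let `m ≥ 2`, let `w` be a unit vector and `φ` any smooth function with compact support that does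
   not meet the circle `a w + b J w`, `a² + b² = 1`. There is `κ₀ < 1` such that for all small `ε`
   and ALL `κ ∈ [κ₀, 1)` the cone `|⟨x, w⟩|² = κ ‖x‖²` outside the table `‖x‖² + ε φ(x) ≤ 1` is an
   invariant hypersurface.
5. In particular the answer to Q2 is yes, for every `m ≥ 2`. -/
theorem result :
    (∀ (m : ℕ) (K : Set (Sym m)), IsTable K →
      (∀ x ∈ Kᶜ, ∃! y, IsTangencyPoint K x y) ∧ BijOn (outerBilliard K) Kᶜ Kᶜ) ∧
    (∀ (m : ℕ) (Z K : Set (Sym m)), IsComplexCone Z → IsTable K →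
      (∀ y ∈ Z, ‖y‖ = 1 → ∀ᶠ x in 𝓝 y, (x ∈ K ↔ ‖x‖ ≤ 1)) →
      IsOuterInvariantHypersurface K (Kᶜ ∩ Z) ∧
        (IsEllipsoid K → K = Metric.closedBall 0 1)) ∧
    (∀ (m : ℕ) (Z : Set (Sym m)), IsComplexCone Z → ∀ φ : Sym m → ℝ, ContDiff ℝ ∞ φ →
      HasCompactSupport φ → (∀ y ∈ Z, ‖y‖ = 1 → y ∉ tsupport φ) →
      ∃ ε₀ : ℝ, 0 < ε₀ ∧ ∀ ε : ℝ, |ε| ≤ ε₀ → IsTable (perturbedBall φ ε) ∧
        IsOuterInvariantHypersurface (perturbedBall φ ε) ((perturbedBall φ ε)ᶜ ∩ Z) ∧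
        (ε ≠ 0 → (∃ x : Sym m, ‖x‖ = 1 ∧ φ x ≠ 0) → ¬ IsEllipsoid (perturbedBall φ ε))) ∧
    (∀ m : ℕ, 2 ≤ m → ∀ w : Sym m, ‖w‖ = 1 → ∀ φ : Sym m → ℝ, ContDiff ℝ ∞ φ →
      HasCompactSupport φ → (∀ a b : ℝ, a ^ 2 + b ^ 2 = 1 → a • w + b • J w ∉ tsupport φ) →
      ∃ ε₀ κ₀ : ℝ, 0 < ε₀ ∧ 0 < κ₀ ∧ κ₀ < 1 ∧ ∀ ε : ℝ, |ε| ≤ ε₀ →
        IsTable (perturbedBall φ ε) ∧
        (∀ κ : ℝ, κ₀ ≤ κ → κ < 1 → IsOuterInvariantHypersurface (perturbedBall φ ε)
          ((perturbedBall φ ε)ᶜ ∩ lineCone w κ)) ∧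
        (ε ≠ 0 → (∃ x : Sym m, ‖x‖ = 1 ∧ φ x ≠ 0) → ¬ IsEllipsoid (perturbedBall φ ε))) ∧
    (∀ m : ℕ, 2 ≤ m → ∃ K : Set (Sym m), IsTable K ∧ ¬ IsEllipsoid K ∧
      ∃ S : Set (Sym m), IsOuterInvariantHypersurface K S) := by
  have h4 : ∀ m : ℕ, 2 ≤ m → ∀ w : Sym m, ‖w‖ = 1 → ∀ φ : Sym m → ℝ, ContDiff ℝ ∞ φ →
      HasCompactSupport φ → (∀ a b : ℝ, a ^ 2 + b ^ 2 = 1 → a • w + b • J w ∉ tsupport φ) →
      ∃ ε₀ κ₀ : ℝ, 0 < ε₀ ∧ 0 < κ₀ ∧ κ₀ < 1 ∧ ∀ ε : ℝ, |ε| ≤ ε₀ →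
        IsTable (perturbedBall φ ε) ∧
        (∀ κ : ℝ, κ₀ ≤ κ → κ < 1 → IsOuterInvariantHypersurface (perturbedBall φ ε)
          ((perturbedBall φ ε)ᶜ ∩ lineCone w κ)) ∧
        (ε ≠ 0 → (∃ x : Sym m, ‖x‖ = 1 ∧ φ x ≠ 0) → ¬ IsEllipsoid (perturbedBall φ ε)) := by
    intro m hm w hw φ h1 h2 hmiss
    obtain ⟨ε₀, hε₀, H⟩ := Pool.Agent.H30OB.perturbedBall_table h1 h2
    obtain ⟨κ₀, hκ0, hκ1, hκ⟩ := Pool.Agent.H30OB.exists_kappa hw h2 hmiss
    refine ⟨ε₀, κ₀, hε₀, hκ0, hκ1, fun ε hε => ⟨(H ε hε).1, fun κ hκ2 hκ3 => ?_, fun h0 hx => ?_⟩⟩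
    · refine Pool.Agent.H30OB.cone_invariant
        (Pool.Agent.H30OB.lineCone_isComplexCone hm hw (hκ0.trans_le hκ2) hκ3) (H ε hε).1 ?_
      intro y hy hy1
      refine Pool.Agent.H30OB.perturbedBall_near ε fun hyφ => ?_
      have h3 := hκ y hyφ hy1
      have h5 : Pool.Agent.H30OB.lineSq w y = κ * ‖y‖ ^ 2 := hy.2
      rw [hy1] at h5
      rw [h5] at h3
      linarith
    · refine (H ε hε).2 h0 ⟨w, hw, ?_⟩ hx
      have := hmiss 1 0 (by norm_num)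
      simpa using this
  refine ⟨fun m K hK => ⟨fun x hx => Pool.Agent.H30OB.existsUnique_tangency hK hx,
    Pool.Agent.H30OB.bijOn hK⟩, ?_, ?_, h4, ?_⟩
  · intro m Z K hZ hK hnear
    refine ⟨Pool.Agent.H30OB.cone_invariant (cone_iff hZ) hK hnear, fun hE => ?_⟩
    obtain ⟨x, hx⟩ := hZ.nonempty
    have h1 := Pool.Agent.H30OB.unit_mem (cone_iff hZ) hK hnear hx
    exact Pool.Agent.H30OB.ellipsoid_eq_ball hE h1.2.1 (hnear _ h1.1 h1.2.1)
  · intro m Z hZ φ h1 h2 hmiss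
    obtain ⟨ε₀, hε₀, H⟩ := Pool.Agent.H30OB.perturbedBall_table h1 h2
    have hnear : ∀ ε : ℝ, ∀ y ∈ Z, ‖y‖ = 1 → ∀ᶠ x in 𝓝 y, (x ∈ perturbedBall φ ε ↔ ‖x‖ ≤ 1) :=
      fun ε y hy hy1 => Pool.Agent.H30OB.perturbedBall_near ε (hmiss y hy hy1)
    refine ⟨ε₀, hε₀, fun ε hε => ⟨(H ε hε).1,
      Pool.Agent.H30OB.cone_invariant (cone_iff hZ) (H ε hε).1 (hnear ε), fun h0 hx => ?_⟩⟩
    obtain ⟨x, hx'⟩ := hZ.nonempty
    have h3 := Pool.Agent.H30OB.unit_mem (cone_iff hZ) (H ε hε).1 (hnear ε) hx'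
    exact (H ε hε).2 h0 ⟨_, h3.2.1, hmiss _ h3.1 h3.2.1⟩ hx
  · intro m hm
    set w : Sym m := EuclideanSpace.single (Sum.inl ⟨0, by omega⟩) (1 : ℝ) with hwd
    have hw : ‖w‖ = 1 := by rw [hwd]; simp
    obtain ⟨v, hv, hwv, hJv⟩ := Pool.Agent.H30OB.exists_orth hm w
    let b : ContDiffBump v := ⟨1 / 8, 1 / 4, by norm_num, by norm_num⟩
    obtain ⟨ε₀, κ₀, hε₀, hκ0, hκ1, H⟩ := h4 m hm w hw b b.contDiff b.hasCompactSupport (by
      intro c d hcd hmem
      rw [b.tsupport_eq, Metric.mem_closedBall, dist_eq_norm] at hmem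
      have h1 : ‖c • w + d • J w - v‖ ^ 2 = 2 := by
        rw [norm_sub_sq_real, Pool.Agent.H30OB.norm_mul, hw, hv, inner_add_left,
          real_inner_smul_left, real_inner_smul_left, hwv, hJv, hcd]
        norm_num
      have h2 : ‖c • w + d • J w - v‖ ≤ 1 / 4 := hmem
      nlinarith [norm_nonneg (c • w + d • J w - v)])
    obtain ⟨k1, k2, k3⟩ := H ε₀ (by rw [abs_of_pos hε₀])
    refine ⟨perturbedBall b ε₀, k1, k3 hε₀.ne' ⟨v, hv, ?_⟩, _, k2 κ₀ le_rfl hκ1⟩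
    rw [b.one_of_mem_closedBall (Metric.mem_closedBall_self (by norm_num))]
    exact one_ne_zero

end Pool.Agent.Results.MP_d967a3_an.OuterCones
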